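import Pool.Agent.H82.NET.Stmts

set_option autoImplicit false

namespace Pool.NET

theorem top_thm (hTPC : TPC_S) (hTPF : TPF_S) (hTPD : TPD_S) : TOP_S := by
  intro P _ _ F hF hdis hcov
  have h1 : ∀ q : P × P, ∃ δ0 : ℝ, 0 < δ0 ∧ (¬ q.1 ≤ q.2 → ¬ q.2 ≤ q.1 →
      ∀ δ, 0 < δ → δ < δ0 → Disjoint (Qd δ (F q.1)) (Qd δ (F q.2))) := by
    intro q
    by_cases h : ¬ q.1 ≤ q.2 ∧ ¬ q.2 ≤ q.1
    · obtain ⟨δ0, h0, h2⟩ := hTPD (F q.1) (F q.2) (hF q.1).1 (hF q.2).1 (hdis q.1 q.2 h.1 h.2)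
      exact ⟨δ0, h0, fun _ _ => h2⟩
    · exact ⟨1, one_pos, fun h3 h4 => absurd ⟨h3, h4⟩ h⟩
  choose f hf0 hf using h1
  obtain ⟨δ, hδ0, hδ⟩ : ∃ δ : ℝ, 0 < δ ∧ ∀ q, δ < f q := by
    rcases isEmpty_or_nonempty (P × P) with hE | hE
    · exact ⟨1, one_pos, fun q => (hE.false q).elim⟩
    · obtain ⟨q0, hq0⟩ := Finite.exists_min f
      refine ⟨f q0 / 2, half_pos (hf0 q0), fun q => ?_⟩
      have h2 := hq0 q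
      have h3 := hf0 q0
      linarith
  have hmem : ∀ (x : P) (p : ℝ × ℝ), p ∈ F x → ((⌊p.1 / δ⌋, ⌊p.2 / δ⌋) : Nd) ∈ Qd δ (F x) :=
    fun x p hp => ⟨p, hp, Or.inl rfl, Or.inl rfl⟩
  refine ⟨fun x => Qd δ (F x), fun x => ⟨hTPF δ (F x) hδ0 (hF x).1, ?_,
    hTPC δ (F x) hδ0 (hF x).2⟩, fun x y hxy hyx => hf (x, y) hxy hyx δ hδ0 (hδ (x, y)),
    fun x y hxy => ?_⟩
  · obtain ⟨p, hp⟩ := (hF x).2.nonempty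
    exact ⟨_, hmem x p hp⟩
  · obtain ⟨p, hp, hp'⟩ := hcov x y hxy
    exact ⟨_, hmem x p hp, hmem y p hp'⟩

end Pool.NET
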